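import Pool.Agent.Q193.LT.Cyc

/-!
# Homological and numerical equivalence, and the cubic hypersurfaces `T(x, y, z) = 1`

Let `F` be a perfect field and `k` an algebraic extension of `F` (for instance `k = F`, or `F` a prime
field and `k` an algebraic closure of `F`), and fix a Weil cohomology theory `H` with a coefficient field
`K` of characteristic zero on smooth projective varieties over `k` (one of the classical ones). For a
smooth projective scheme `Y` over `F` let `A^n(Y)` be the group of the cycles of codimension `n` on `Y_k`
with rational coefficients modulo homological equivalence, and `B^n(Y)` the group of these cycles modulo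
numerical equivalence. These are adequate equivalence relations, so the groups are additive functors of
the Chow motive of `Y_k`, with a surjection `A^n(Y) → B^n(Y)`.

For a separated scheme `X` of finite type over `F` let `W(X)` be the weight complex of `X_k` (Gillet,
Soulé, Bondarko; a complex of Chow motives over `k` with rational coefficients, for the cohomology with
compact supports; `W(X) = h(X_k)` for smooth projective `X`), and put `A^{n,i}(X) = H^i(A^n(W(X)))` and
`B^{n,i}(X) = H^i(B^n(W(X)))`. `BijAll C X` says that the maps `A^{n,i}(X) → B^{n,i}(X)` are isomorphisms
for all `n` and `i`. For smooth projective `Y` the groups for `i ≠ 0` are zero, and `BijAll C Y` says that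
homological and numerical equivalence coincide on `Y_k` (property `Describes.classes`). Every smooth
projective variety over `k` is a union of connected components of `Y_k` for a smooth projective scheme `Y`
over `F` of the same dimension.

**Theorem.** (1) Homological and numerical equivalence coincide on all smooth projective varieties over
`k` if and only if the maps `A^{n,i}(Z) → B^{n,i}(Z)` are isomorphisms for the smooth affine cubic
hypersurfaces `Z : T(x, y, z) = 1` of all trilinear forms `T` with coefficients in `F`. If `F` is a prime
field it is enough to consider the hypersurfaces `∑_{(i, j, l) ∈ H} x_i y_j z_l = 1` for the finite sets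
`H` of triples.

(2) For all `n`, the two equivalence relations coincide on all smooth projective varieties of dimension
at most `n` over `k` if and only if the maps are isomorphisms for the hypersurfaces `T(x, y, z) = 1` such
that one of the three blocks of variables has at most `n + 2` variables (the other two blocks are
arbitrary).

(3) Unconditionally, the maps are isomorphisms if one of the blocks has at most four variables; in
characteristic zero this is true for blocks of at most six variables.
-/

set_option autoImplicit false

open CategoryTheory CategoryTheory.Limits AlgebraicGeometry Pool.Agent.Y116.UV Pool.Agent.Z125.UN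
  Pool.Agent.Q193.LT

universe w w'

namespace Pool.Agent.Results.MP_0c8446_ag.CubicHypersurfaces

/-- Cycles with rational coefficients, cycle classes and the degrees of the products of cycles. -/
structure CycleData (F : Type) [Field F] where
  /-- the cycles of codimension `r` on `X_k`, with rational coefficients -/
  Z : ℕ → Sch F → ModuleCat.{w'} ℚ
  /-- the cohomology group `H^{2r}(X_k)` -/
  H : ℕ → Sch F → ModuleCat.{w'} ℚ
  /-- the cycle class map -/
  cl : ∀ r X, Z r X ⟶ H r X
  /-- the numbers `deg (a · b)` for cycles `b` of complementary dimension on a component of `X_k` -/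
  deg : ∀ {r : ℕ} (s : ℕ) {X : Sch F}, Z r X → Z s X → ℚ

/-- All numerically trivial cycles on `X_k` are homologically trivial. -/
def HomNum {F : Type} [Field F] (D : CycleData.{w'} F) (X : Sch F) : Prop :=
  ∀ (r : ℕ) (a : D.Z r X), (∀ (s : ℕ) (b : D.Z s X), D.deg s a b = 0) → (D.cl r X).hom a = 0

/-- The maps from cycles modulo homological equivalence to cycles modulo numerical equivalence, and the
known standard properties of weight complexes. -/
structure Describes {F : Type} [Field F] (D : CycleData.{w'} F) (C : PairData.{w} F (ℤ × ℤ) ℚ) :
    Prop where
  classes : ∀ Y : Sch F, SmoothProj Y → (HomNum D Y ↔ BijAll C Y)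
  weight : IsWeightPair C
  generated : WeightGen C
  point : BijAll C (aff F F)

/-- The maps are isomorphisms for all hypersurfaces `T = 1` with a block of at most `m` variables. -/
def Forms {F : Type} [Field F] (C : PairData.{w} F (ℤ × ℤ) ℚ) (m : ℕ) : Prop :=
  ∀ (a b c : ℕ) (T : Fin a → Fin b → Fin c → F), (a ≤ m ∨ b ≤ m ∨ c ≤ m) → BijAll C (hypS T)

/-- The two equivalence relations coincide for all smooth projective schemes of dimension at most `n`. -/
def UpTo {F : Type} [Field F] (D : CycleData.{w'} F) (n : ℕ) : Prop :=
  ∀ Y : Sch F, SmoothProj Y → topologicalKrullDim Y.left ≤ n → HomNum D Y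

/-- **Homological and numerical equivalence, and cubic hypersurfaces.** See the explanations above.
Known cases that are used: varieties of dimension at most two (Matsusaka), and in characteristic zero
varieties of dimension at most four (Lieberman). -/
theorem result {F : Type} [Field F] [PerfectField F] {D : CycleData.{w'} F}
    {C : PairData.{w} F (ℤ × ℤ) ℚ} (h : Describes D C) (surfaces : UpTo D 2)
    (fourfolds : CharZero F → UpTo D 4) :
    ((∀ Y : Sch F, SmoothProj Y → HomNum D Y) ↔
      ∀ (a b c : ℕ) (T : Fin a → Fin b → Fin c → F), BijAll C (hypS T)) ∧
    (Frac F → ((∀ Y : Sch F, SmoothProj Y → HomNum D Y) ↔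
      ∀ (a b c : ℕ) (H : Finset (Fin a × Fin b × Fin c)), BijAll C (tripS F H))) ∧
    (∀ n : ℕ, UpTo D n ↔ Forms C (n + 2)) ∧ Forms C 4 ∧ (CharZero F → Forms C 6) := by
  have e : ∀ n : ℕ, UpTo D n ↔ Forms C (n + 2) := by
    intro n
    refine Iff.trans ?_ (wg_dim h.generated h.weight h.point n)
    exact ⟨fun g Y hY hn => (h.classes Y hY).mp (g Y hY hn),
      fun g Y hY hn => (h.classes Y hY).mpr (g Y hY hn)⟩
  have e' : (∀ Y : Sch F, SmoothProj Y → HomNum D Y) ↔ ∀ Y : Sch F, SmoothProj Y → BijAll C Y :=
    ⟨fun g Y hY => (h.classes Y hY).mp (g Y hY), fun g Y hY => (h.classes Y hY).mpr (g Y hY)⟩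
  exact ⟨e'.trans (wg_all h.generated h.weight h.point),
    fun hF => e'.trans (wg_graph h.generated h.weight h.point hF), e, (e 2).mp surfaces,
    fun h0 => (e 4).mp (fourfolds h0)⟩

end Pool.Agent.Results.MP_0c8446_ag.CubicHypersurfaces
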