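import Pool.Agent.Q72.DP.HomNum

/-!
# Homological and numerical equivalence: powers of one divisor suffice

`𝒱` is a class of smooth projective geometrically irreducible varieties over the field `k` closed
under products (for example all of them), `C` the Chow groups with rational coefficients (in the
form of their formal properties, `IsChowProj`), `H` a Weil cohomology theory (`IsWeilProj`) and `B`
the Grothendieck rings of vector bundles with their known properties (`IsKTheory`: Chern character,
Serre's theorem, projective bundles, which belong to the class `𝒱`).

Theorem. For every variety `X` the following are equivalent:
* `D(X)`: numerically trivial cycles on `X` are homologically trivial;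
* every vector bundle on `X` all of whose Chern classes are numerically trivial has homologically
  trivial Chern classes;
* for every vector bundle `E` of rank `m` on `X`, with `ξ` the class of `O(1)` on the projective
  bundle of `E`: if `ξ^m` is numerically trivial then it is homologically trivial;
* the same for all powers of all divisors on all projective bundles over `X`.

The conjecture `D` holds for all varieties if and only if, for every divisor `G` on a variety `V` of
dimension `2m` such that `G^m` is numerically trivial, the class of `G^m` in `H^(2m)(V)` is zero.
-/

open CategoryTheory AlgebraicGeometry

set_option autoImplicit false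

universe u v w

namespace Pool.Agent.Results.MP_0c8446_ag.PowersOfDivisors

open Pool.Agent.H914 Pool.Agent.W492.BB Pool.Agent.TH133 Pool.Agent.Q72.DP

/-- Homological and numerical equivalence coincide on `X` if and only if they do for the Chern
classes of vector bundles, if and only if they do for the powers of divisors on projective bundles
over `X`; they coincide on all varieties if and only if they do for the powers `G^m` of single
divisors on varieties of dimension `2m`. -/
theorem result {k : Type u} [Field k] {𝒱 : VarClass k} (C : TheoryData.{u, v, 0} 𝒱 ℚ)
    [IsChowProj C] {K : Type w} [Field K] (H : WeilTheoryData.{u, v, w} C K) [IsWeilProj H]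
    (B : BundleData C) (hB : B.IsKTheory) :
    (∀ X : 𝒱.Obj, [HomEqNum H X, BundleHomEqNum H B X, TautHomEqNum H B X,
      ∀ (P : 𝒱.Obj) (f : P ⟶ X), B.IsBundle f → PowersHomEqNum H P].TFAE) ∧
    [∀ X : 𝒱.Obj, HomEqNum H X, ∀ V : 𝒱.Obj, PowersHomEqNum H V,
      MiddlePowersHomEqNum H].TFAE :=
  ⟨homNum_at hB, homNum_all hB⟩

end Pool.Agent.Results.MP_0c8446_ag.PowersOfDivisors
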