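import Mathlib
import Pool.Agent.Q70.HN.Times
import Pool.Agent.Q70.MM.Times

/-!
# Homological and numerical equivalence on the products of arbitrary varieties with abelian varieties
with several non-isogenous factors with the same CM field

Let `A` be an abelian variety, of any dimension, over the field with `q = p ^ a` elements, and let `Z`
be an arbitrary smooth projective variety over this field. The theorems of the starting files on
homological and numerical equivalence on `A × Z` suppose that the simple factors of `A` which are not
isogenous have different and unrelated CM fields, and that the Frobenius eigenvalues of `Z` are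
independent of these. Here `A` may have several factors `A c l` (`l` in a finite set `J c`) with the
**same** CM field `K c`. We suppose:

* the functions `n` on the complex embeddings of `K c` with `n (conj φ) = - n φ` are an absolutely
  irreducible representation of the automorphisms of `ℂ` (`OddAbsolutelyIrreducible`; the generic
  case, it is true, for example, if the Galois group of the normal closure of `K c` consists of all
  permutations of the embeddings compatible with the complex conjugation, or if only some
  automorphism exchanges one embedding with its complex conjugate and fixes all the others);
* there are no equivariant maps between these functions for `K c` and `K c'` if `c ≠ c'`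
  (`Unrelated`);
* `A` is isogenous to a product of powers of abelian varieties with the characteristic polynomials of
  Frobenius `f i`, `i = (c, l)`, the complex roots of `f i` being conjugates of a Weil number `π c l`
  for `q` in `K c` (`IsPolyOf`, `IsAbelian`).

**Theorem** (first part). Suppose that for each `c` the slopes of the numbers `π c l`, `l` in `J c`, as
functions on the set of the embeddings of `K c` into the algebraic closure of `ℚ_p`, minus `1 / 2`,
are linearly independent over `ℚ` (`IndependentSlopes`). Let `Z` be a smooth projective variety over
the same field all of whose Frobenius eigenvalues are unrelated to the fields `K c` or have smaller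
degree than `K c` (`HarmlessRoots`). Then for every `c` **homological and numerical equivalence
coincide for the cycles of codimension `c` on `A × Z` if and only if they coincide for the cycles
of codimension `c - i` on `Z`, for all `0 ≤ i ≤ dim A`** (`HomNumFor`). The cohomology is any Weil
cohomology with coefficients in an algebraically closed field, for instance `ℓ`-adic or crystalline
cohomology with extended coefficients. Nothing is assumed about conjectures of Lefschetz type or the
Tate conjecture for `Z`.

For instance the Frobenius eigenvalues of `Z` may be of arbitrary kind if the Betti numbers of `Z` are
smaller than the degrees `[K c : ℚ]`. As homological and numerical equivalence coincide for surfaces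
(Matsusaka, for divisors), they coincide in **all codimensions on `A × Z` for all surfaces `Z` with
Betti numbers smaller than the degrees `[K c : ℚ]`**, and on `A × Z` in the codimensions `c ≤ 1` for all `Z`;
for a threefold `Z` of this kind with the conjecture in codimension two it is true for `A × Z`.

**Second part (ordinary abelian varieties): at most three non-isogenous factors for each field.** If all
`π c l` are ordinary, no set `J c` has more than three elements, and for `l ≠ l'` the slopes of
`π c l` and `π c l'` are neither equal nor opposite (`DifferentSlopes`; for ordinary numbers this means
that no positive powers are equal or complex conjugate, so it means that `A c l` and `A c l'` are not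
isogenous over an extension of the ground field), then the conclusion holds.

Relation to the starting files and to the results of this team. `AllCMTypesTimes` (MP_5f0950_ag)
has one Weil number for each field; `IndependentFactors`, `SimpleSpectrumProducts` (this folder) suppose
independent Frobenius eigenvalues; `SmallSlopeDeviation` (helper70, MP_5f0950_ag) has one Weil number for
each field and a condition on the slopes of `Z`. `ThreeTypesPerField` (helper70, MP_950c68_ag) is the
theorem for the Tate conjecture. For abelian varieties over finite fields Clozel has proved that the
equivalences agree for infinitely many `ℓ`, and Lenstra and Zarhin, Zarhin, Dupuy, Kedlaya and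
Zureick-Brown treat the relations between the Frobenius eigenvalues of a simple abelian variety.

The proof. A relation between the conjugates of the `π c l` gives rational odd functions `n c l` on the
embeddings of `K c` such that `∑ c, ∑ l, ∑ x, n c l x * u c l (σ x) = 0` for all `σ` in the Galois
group, where `u c l` is the slope function minus `1 / 2`. Summing the square over `σ`, by Schur's
lemma for the invariant form `∑ σ, u c l (σ x) * u c' l' (σ y)`, which is zero for `c ≠ c'` or
`y ≠ x, conj x`, one obtains `∑ l, n c l x * u c l (σ x) = 0` for each single `x`, `c` and `σ`, that is
a linear relation between the slope functions of the `π c l`, `l` in `J c`, with the coefficients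
`n c l x`. So these are zero. For ordinary numbers the `u c l` are functions with two opposite values,
and three such functions, no two of which are equal or opposite, are linearly independent. An
eigenvalue of `Z` in such a relation defines an equivariant map from the odd functions on the
embeddings of `K c` to a space of dimension smaller than `[K c : ℚ] / 2`. The reduction to
relations is the one of the starting files (Y1.CT).
-/

set_option autoImplicit false

namespace Pool.Agent.Results.MP_0c8446_ag.ThreeTypesPerField

open NumberField Module Polynomial Pool.Agent.Y137.MV Pool.Agent.Y137.SL Pool.Agent.Y1.CT
  Pool.Agent.Q70.SQ Pool.Agent.Q70.MM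

/-- **Homological and numerical equivalence coincide for cycles of codimension `c` on `A × Z` if and only
if they do for cycles of codimension `c - i` on `Z`, `0 ≤ i ≤ dim A`, for the abelian varieties `A`
over finite fields which are products of powers of abelian varieties with absolutely irreducible
CM fields, pairwise equal or unrelated, those with the same field having linearly independent slopes
(first part), for instance of at most three non-isogenous ordinary ones for each field (second
part), and all varieties `Z` with eigenvalues unrelated to these fields or of smaller degree.** -/
theorem result :
    (∀ (p : ℕ) [Fact p.Prime] (a : ℕ) (C : Type) [Fintype C] (K : C → Type)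
      [∀ c, Field (K c)] [∀ c, NumberField (K c)] [∀ c, IsCMField (K c)]
      (J : C → Type) [∀ c, Fintype (J c)] (π : ∀ c, J c → K c) (f : (Σ c, J c) → ℤ[X]), 0 < a →
      (∀ c l, π c l * IsCMField.complexConj (K c) (π c l) = (p : K c) ^ a) →
      (∀ c, OddAbsolutelyIrreducible (K c)) →
      (∀ c c', c ≠ c' → Pool.Agent.Y137.MV.Unrelated (K c) (K c')) →
      IndependentSlopes p a π → (∀ i, IsPolyOf (π i.1 i.2) (f i)) →
      HomNumFor (HarmlessRoots K) (p ^ a) f) ∧
    (∀ (p : ℕ) [Fact p.Prime] (a : ℕ) (C : Type) [Fintype C] (K : C → Type)
      [∀ c, Field (K c)] [∀ c, NumberField (K c)] [∀ c, IsCMField (K c)]
      (J : C → Type) [∀ c, Fintype (J c)] (π : ∀ c, J c → K c) (f : (Σ c, J c) → ℤ[X]), 0 < a →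
      (∀ c l, π c l * IsCMField.complexConj (K c) (π c l) = (p : K c) ^ a) →
      (∀ c, OddAbsolutelyIrreducible (K c)) →
      (∀ c c', c ≠ c' → Pool.Agent.Y137.MV.Unrelated (K c) (K c')) →
      (∀ c, Fintype.card (J c) ≤ 3) → (∀ c l, IsOrdinary p a (π c l)) →
      (∀ c l l', l ≠ l' → DifferentSlopes p a (π c l) (π c l')) →
      (∀ i, IsPolyOf (π i.1 i.2) (f i)) →
      HomNumFor (HarmlessRoots K) (p ^ a) f) := by
  have hgen : ∀ (p : ℕ) [Fact p.Prime] (a : ℕ) (C : Type) [Fintype C] (K : C → Type)
      [∀ c, Field (K c)] [∀ c, NumberField (K c)] [∀ c, IsCMField (K c)]
      (J : C → Type) [∀ c, Fintype (J c)] (π : ∀ c, J c → K c) (f : (Σ c, J c) → ℤ[X]), 0 < a →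
      (∀ c l, π c l * IsCMField.complexConj (K c) (π c l) = (p : K c) ^ a) →
      (∀ c, OddAbsolutelyIrreducible (K c)) →
      (∀ c c', c ≠ c' → Pool.Agent.Y137.MV.Unrelated (K c) (K c')) →
      IndependentSlopes p a π → (∀ i, IsPolyOf (π i.1 i.2) (f i)) →
      HomNumFor (HarmlessRoots K) (p ^ a) f := by
    intro p _ a C _ K _ _ _ J _ π f ha hw habs hun hind hf
    have hang := angle_same π ha hw habs hun hind
    have hno := noRel_of_angle (F := fun i : Σ c, J c => K i.1) hang (fun i => hw i.1 i.2) f hf
    exact Pool.Agent.Q70.HN.homNumFor_mono (fun χ hχ ρ hρ =>
      ⟨(unrelated_of_harmless (fun c => (habs c).1) (hχ ρ hρ)).1,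
        fun i => (unrelated_of_harmless (fun c => (habs c).1) (hχ ρ hρ)).2 i.1⟩)
      (homNumFor_of (Nat.one_lt_pow ha.ne' (Fact.out : p.Prime).one_lt) hno)
  refine ⟨hgen, ?_⟩
  intro p _ a C _ K _ _ _ J _ π f ha hw habs hun hcard hord hdiff hf
  exact hgen p a C K J π f ha hw habs hun (independent_of_three π ha hcard hord hdiff) hf

end Pool.Agent.Results.MP_0c8446_ag.ThreeTypesPerField
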