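import Mathlib
import Pool.Agent.Q70.HN.Times

/-!
# Homological and numerical equivalence on the products of abelian varieties with all varieties of
small Hodge numbers

Let `q = p ^ a` and let `A` be an abelian variety, of any dimension, over the field with `q`
elements, isogenous to a product of powers of abelian varieties with characteristic polynomials of
Frobenius `f i` (`i` in a finite set), the complex roots of `f i` being the conjugates of a Weil
number `π i` for `q` in a CM field `F i` (`IsPolyOf`). We suppose (the generic case; the first
condition is true, for example, if the Galois group of the normal closure of `F i` consists of all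
permutations of the embeddings compatible with the complex conjugation, or if only some automorphism
exchanges one embedding with its complex conjugate and fixes all the others):

* the functions `n` on the complex embeddings of `F i` with `n (conj φ) = - n φ` are an absolutely
  irreducible representation of the automorphisms of `ℂ` (`OddAbsolutelyIrreducible`), and there are
  no equivariant maps between those of `F i` and `F i'` for `i ≠ i'` (`Unrelated`);
* the `π i` are ordinary (first part), or only not supersingular (`HasOtherSlope`, second part).

Let `Z` be a smooth projective variety over the same field, and for each `w` let `h w` be numbers such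
that the Newton polygon of the Frobenius endomorphism on `H ^ w (Z)` lies above the polygon with the
slopes `i`, of multiplicity `h w i` (`HasHodgeNumbers`; the roots of the characteristic polynomial
have weight `w` by Deligne). By the theorems of Mazur and Ogus one can take the Hodge numbers
`h w i = h ^ (w - i) (Z, Ω ^ i)` if the crystalline cohomology of `Z` is torsion free and the Hodge
spectral sequence degenerates, and otherwise the Hodge numbers of any lift of `Z` to characteristic
zero. Let

  `spread w (h w) = ∑ i, h w i * (2 i - w) ^ 2 = ∑ h ^ (i, j) (i - j) ^ 2` (the sum over `i + j = w`).

**Theorem.** If for all `w` and `i` this number is less than the degree `[F i : ℚ]`, or `w` is even and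
it is less than `2 [F i : ℚ]` (`SmallHodge`), then (`HomNumFor`), for every `c`, **homological and
numerical equivalence coincide for cycles of codimension `c` on `A × Z` if and only if they coincide
for cycles of codimension `c - i` on `Z` for all `0 ≤ i ≤ dim A`.** The cohomology is any Weil
cohomology with algebraically closed coefficient field, for instance `ℓ`-adic or crystalline
cohomology, with extended coefficients.

Homological and numerical equivalence coincide for divisors (Matsusaka) and for cycles of dimension
zero; so they coincide **on `A × Z` in all codimensions for all surfaces `Z` as above**, and for all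
`Z` in the codimensions `c ≤ 1`. For example let `F i` have the degree at least `2 g` for all `i` (the
degree is `2 dim (A i)` for the simple factors `A i` of `A`). For a surface `Z` the condition is (third
part of the theorem)

* `b_1 (Z) < 2 g` **and `p_g (Z) < g / 2`**; there is no condition on `h ^ (1, 1)`;

so **homological and numerical equivalence coincide on `A ^ r × Z`, for all `r`, all ordinary `A` as
above and all such surfaces `Z`**, for example all K3 and Enriques surfaces if `g ≥ 3` and all
surfaces of general type with `b_1 (Z) < 2 g` and `p_g (Z) < g / 2`. For threefolds there is the
additional condition `9 h ^ (3, 0) + h ^ (2, 1) < g`. The eigenvalues of Frobenius on the cohomology of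
`Z` may be related in any way with the fields `F i`: the fields generated by them may be contained in
the Galois closures of the `F i`. Neither the Tate conjecture nor a conjecture of Lefschetz type for
`Z` is assumed.

In the second part the `π i` are only not supersingular, and the sum of the squared deviations of the
Hodge slopes is to be smaller than that of the slopes of `π i` (`SmallFor`; for even `w` a factor two
is gained).

Relation to the starting files and to the results of this team. `ThreeTypesPerField` (this folder,
helper70), `AllCMTypesTimes` (MP_5f0950_ag, starting file) have hypotheses of independence on `Z`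
(eigenvalues unrelated to the fields of `A`, or of small degree). In `SmallSlopeDeviation`
(MP_5f0950_ag, helper70) the condition is, for each single eigenvalue `α` of `Z`, that `α` is
unrelated to `F i` or that the mean square deviation of its slopes is small. The criterion by Hodge
numbers is the one found by helper70 for the Tate conjecture (`TimesSmallHodgeNumbers`, MP_640417_ag,
MP_021685_ag) and for the conjecture of Hodge type (MP_361a6f_ag). New here: homological and
numerical equivalence, under conditions on the Hodge numbers of `Z` only.

The proof. A multiplicative relation between an eigenvalue `α`, a power of `q` and conjugates of the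
`π i` which is not trivial at `i` gives, by a second moment (Schur) argument for the slopes, that the
mean square deviation of the slopes of `α` is at least that of `π i`, which is `1 / 4` for ordinary
`π i` (`1 / 2` for even weight); and that `α` has at least `[F i : ℚ]` conjugates, because the
exponents of the relation are an odd function, whose conjugates span all odd functions, and their
number is at most the degree of `α`. So the sum of the squared deviations is at least
`[F i : ℚ] / 4`. But it is at most `spread w h / 4`, because the Newton polygon lies above the Hodge
polygon (Abel summation). So there are no such relations, and the theory of the starting files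
(Y1.CT) reduces the question for `A × Z` to `Z`.
-/

set_option autoImplicit false

namespace Pool.Agent.Results.MP_0c8446_ag.TimesSmallHodgeNumbers

open NumberField Module Polynomial Pool.Agent.Y137.MV Pool.Agent.Y137.SL Pool.Agent.Q70.SQ
  Pool.Agent.Q70.HN

/-- **Homological and numerical equivalence coincide for cycles of codimension `c` on `A × Z` if
and only if they do for cycles of codimension `c - i` on `Z`, `0 ≤ i ≤ dim A`, for the ordinary
abelian varieties `A` over finite fields with absolutely irreducible, unrelated CM fields of degree
greater than `∑ h ^ (i, j) (i - j) ^ 2` (or half of this number, for even degree), where `h ^ (i, j)`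
are the Hodge numbers of `Z`.** The second part is about Weil numbers which are not ordinary, the
third one evaluates the condition in low degrees. -/
theorem result :
    (∀ (p : ℕ) [Fact p.Prime] (a : ℕ) (I : Type) [Fintype I] (F : I → Type)
      [∀ i, Field (F i)] [∀ i, NumberField (F i)] [∀ i, IsCMField (F i)] (π : ∀ i, F i)
      (f : I → ℤ[X]), 0 < a →
      (∀ i, π i * IsCMField.complexConj (F i) (π i) = (p : F i) ^ a) →
      (∀ i, OddAbsolutelyIrreducible (F i)) → (∀ i i', i ≠ i' → Unrelated (F i) (F i')) →
      (∀ i, IsOrdinary p a (π i)) → (∀ i, Pool.Agent.Y1.CT.IsPolyOf (π i) (f i)) →
      HomNumFor (HasHodgeNumbersWith p a fun w h => ∀ i, SmallHodge w h (finrank ℚ (F i)))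
        (p ^ a) f) ∧
    (∀ (p : ℕ) [Fact p.Prime] (a : ℕ) (I : Type) [Fintype I] (F : I → Type)
      [∀ i, Field (F i)] [∀ i, NumberField (F i)] [∀ i, IsCMField (F i)] (π : ∀ i, F i)
      (f : I → ℤ[X]), 0 < a →
      (∀ i, π i * IsCMField.complexConj (F i) (π i) = (p : F i) ^ a) →
      (∀ i, OddAbsolutelyIrreducible (F i)) → (∀ i i', i ≠ i' → Unrelated (F i) (F i')) →
      (∀ i, HasOtherSlope p a (π i)) → (∀ i, Pool.Agent.Y1.CT.IsPolyOf (π i) (f i)) →
      HomNumFor (HasHodgeNumbersWith p a fun w h => ∀ i, SmallFor p a π w h i) (p ^ a) f) ∧
    ∀ (h : ℕ → ℕ) (D : ℕ),
      (SmallHodge 1 h D ↔ h 0 + h 1 < D) ∧
      (h 2 = h 0 → (SmallHodge 2 h D ↔ 4 * h 0 < D)) ∧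
      (h 3 = h 0 → h 2 = h 1 → (SmallHodge 3 h D ↔ 2 * (9 * h 0 + h 1) < D)) := by
  refine ⟨?_, ?_, ?_⟩
  · intro p _ a I _ F _ _ _ π f ha hw habs hun hord hf
    exact homNumFor_mono (fun χ hχ => goodRoots_of_hodge ha (fun i => (habs i).1)
      (with_of_ordinary ha hord hχ))
      (homNumFor_of (Nat.one_lt_pow ha.ne' (Fact.out : p.Prime).one_lt)
      (noRel_good ha hw habs hun (fun i => other_of_ordinary ha (hord i)) f hf))
  · intro p _ a I _ F _ _ _ π f ha hw habs hun hns hf
    exact homNumFor_mono (fun χ hχ => goodRoots_of_hodge ha (fun i => (habs i).1) hχ)
      (homNumFor_of (Nat.one_lt_pow ha.ne' (Fact.out : p.Prime).one_lt)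
      (noRel_good ha hw habs hun hns f hf))
  · intro h D
    refine ⟨?_, fun h2 => ?_, fun h3 h2 => ?_⟩
    · simp only [SmallHodge, spread, Finset.sum_range_succ, Finset.sum_range_zero]
      have : ¬ Even 1 := by decide
      constructor
      · rintro (h1 | ⟨h1, -⟩)
        · push_cast at h1
          omega
        · exact absurd h1 this
      · intro h1
        left
        push_cast
        omega
    · simp only [SmallHodge, spread, Finset.sum_range_succ, Finset.sum_range_zero, h2]
      constructor
      · rintro (h1 | ⟨-, h1⟩) <;> push_cast at h1 <;> omega
      · intro h1
        right
        refine ⟨even_two, ?_⟩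
        push_cast
        omega
    · simp only [SmallHodge, spread, Finset.sum_range_succ, Finset.sum_range_zero, h3, h2]
      have : ¬ Even 3 := by decide
      constructor
      · rintro (h1 | ⟨h1, -⟩)
        · push_cast at h1
          omega
        · exact absurd h1 this
      · intro h1
        left
        push_cast
        omega

end Pool.Agent.Results.MP_0c8446_ag.TimesSmallHodgeNumbers
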